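import Pool.Agent.Helper38.Dup

/-!
# Triangle-free induced subgraphs of the unitary polarity graph, `q` an odd power of five
-/

set_option autoImplicit false

namespace Pool.Agent.Results.MP_8d5faa_co.PowersOfFive

/-- the unitary polarity graph of the projective plane over `F`, for `F` with `q ^ 2` elements:
distinct points are adjacent if their Hermitian product vanishes -/
def DUP (q : ℕ) (F : Type) [Field F] : SimpleGraph (Projectivization F (Fin 3 → F)) :=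
  SimpleGraph.fromRel fun x y => ∑ i, x.rep i * (y.rep i) ^ q = 0

/-- For `q = 5 ^ k`, `k` odd, a set `S` of points inducing a triangle-free subgraph has at most
`(28 / 57 + o(1)) q ^ 4` elements, explicitly; and at most `(99 / 200) q ^ 4` if `k ≥ 9`. -/
theorem result {k : ℕ} (hk : Odd k) (F : Type) [Field F] [Fintype F]
    (hF : Fintype.card F = (5 ^ k) ^ 2) (S : Finset (Projectivization F (Fin 3 → F)))
    (hS : ((DUP (5 ^ k) F).induce (S : Set (Projectivization F (Fin 3 → F)))).CliqueFree 3) :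
    (((5 : ℝ) ^ k) ^ 2 - 1) * (S.card : ℝ)
        ≤ 28 / 57 * ((5 : ℝ) ^ k) ^ 6 +
          ((5 : ℝ) ^ k - 1) * ((5 : ℝ) ^ k) ^ 4 * Real.sqrt ((5 : ℝ) ^ k + 1) +
          ((5 : ℝ) ^ k) ^ 4 * ((5 : ℝ) ^ k + 1) ∧
      (9 ≤ k → (S.card : ℝ) < 99 / 200 * ((5 : ℝ) ^ k) ^ 4) := by
  classical
  have hb := Pool.Agent.Helper38.Dup.triangle_free_bound hk hF S (by
    intro x hx y hy z hz hxy hyz hxz h
    refine hS {⟨x, hx⟩, ⟨y, hy⟩, ⟨z, hz⟩} ?_
    rw [SimpleGraph.is3Clique_iff]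
    refine ⟨_, _, _, ?_, ?_, ?_, rfl⟩
    · exact ⟨hxy, Or.inl h.1⟩
    · exact ⟨hxz, Or.inl h.2.2⟩
    · exact ⟨hyz, Or.inl h.2.1⟩)
  refine ⟨hb, fun h9 => ?_⟩
  have hx : (1000000 : ℝ) ≤ (5 : ℝ) ^ k := by
    calc (1000000 : ℝ) ≤ 5 ^ 9 := by norm_num
      _ ≤ 5 ^ k := pow_le_pow_right₀ (by norm_num) h9
  have h1 := Pool.Agent.Helper38.Dup.numeric hx hb
  norm_num at h1 ⊢
  exact h1

end Pool.Agent.Results.MP_8d5faa_co.PowersOfFive
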